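import Mathlib

/-!
# Algebraic hypersurfaces separating varieties from closed cones

Both parts of the question are answered: separation (with or without control of the exponent)
always holds in dimension `n ≤ 1` and fails in every dimension `n ≥ 2`.

The counterexample: `K = {|z₀| = |z₁|}`, `V = {z₀ = 0, z₁ = 1}` (a point when `n = 2`).  If a
polynomial `P` has no zero on `K`, then `ζ ↦ P(t ζ, t, 0, ..., 0)` has no zero on `|ζ| = 1` for any
`t ∈ [0,1]`; for `t = 0` it is a nonzero constant, and the absence of zeros in the closed disc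
propagates to `t = 1` by the minimum modulus principle, so `P(0, 1, 0, ..., 0) ≠ 0`.
-/

set_option autoImplicit false

open Set Metric Filter Topology

namespace Pool.Agent.Results.MP_c229cb_an.NoSeparation

/-- `ℂⁿ` with the Euclidean norm. -/
abbrev Cn (n : ℕ) := EuclideanSpace ℂ (Fin n)

/-- The zero set of a polynomial. -/
def Zero {n : ℕ} (P : MvPolynomial (Fin n) ℂ) : Set (Cn n) :=
  {z | MvPolynomial.eval (fun i => z i) P = 0}

/-- `K` is a closed cone with respect to the set `T` of scalars: `K` is closed and `t K ⊆ K` for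
all `t ∈ T`. The question has `T = (0, ∞)`. -/
def IsClosedCone {n : ℕ} (T : Set ℂ) (K : Set (Cn n)) : Prop :=
  IsClosed K ∧ ∀ t ∈ T, ∀ z ∈ K, t • z ∈ K

/-- `V` is an algebraic variety: the common zero set of finitely many polynomials. -/
def IsVariety {n : ℕ} (V : Set (Cn n)) : Prop :=
  ∃ s : Finset (MvPolynomial (Fin n) ℂ), V = {z | ∀ P ∈ s, z ∈ Zero P}

/-- `A` stays polynomially away from `K` with exponent `N`. -/
def StaysAway {n : ℕ} (A K : Set (Cn n)) (N : ℝ) : Prop :=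
  ∃ c : ℝ, 0 < c ∧ ∀ z ∈ A, c ≤ infDist z K * (1 + ‖z‖) ^ N

/-- Q1 in dimension `n` for the exponent `N` and the scalars `T`: every nonempty variety
`V ≠ ℂⁿ` staying polynomially away with exponent `N` from a nonempty closed cone `K` is contained
in an algebraic hypersurface `{P = 0}`, `P` not constant, disjoint from `K`. -/
def SeparationHolds (T : Set ℂ) (n : ℕ) (N : ℝ) : Prop :=
  ∀ K V : Set (Cn n), IsClosedCone T K → K.Nonempty → IsVariety V → V.Nonempty → V ≠ univ →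
    StaysAway V K N →
      ∃ P : MvPolynomial (Fin n) ℂ, (∀ c : ℂ, P ≠ MvPolynomial.C c) ∧ V ⊆ Zero P ∧
        Zero P ∩ K = ∅

/-- Q2 in dimension `n` for the exponent `N` and the scalars `T`: as Q1, and moreover the
hypersurface stays polynomially away from `K` with the same exponent `N`. -/
def StrongSeparationHolds (T : Set ℂ) (n : ℕ) (N : ℝ) : Prop :=
  ∀ K V : Set (Cn n), IsClosedCone T K → K.Nonempty → IsVariety V → V.Nonempty → V ≠ univ →
    StaysAway V K N →
      ∃ P : MvPolynomial (Fin n) ℂ, (∀ c : ℂ, P ≠ MvPolynomial.C c) ∧ V ⊆ Zero P ∧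
        Zero P ∩ K = ∅ ∧ StaysAway (Zero P) K N

/-- minimum modulus principle on the unit disc -/
lemma min_modulus (g : ℂ → ℂ) (hg : Differentiable ℂ g) (δ : ℝ) (hδ : 0 < δ)
    (hne : ∀ ζ : ℂ, ‖ζ‖ ≤ 1 → g ζ ≠ 0) (hb : ∀ ζ : ℂ, ‖ζ‖ = 1 → δ ≤ ‖g ζ‖) (ζ : ℂ) (hζ : ‖ζ‖ ≤ 1) :
    δ ≤ ‖g ζ‖ := by
  have hcl : closure (ball (0:ℂ) 1) = closedBall 0 1 := closure_ball (0:ℂ) one_ne_zero
  have hd : DiffContOnCl ℂ (fun z => (g z)⁻¹) (ball (0:ℂ) 1) := by
    apply hg.diffContOnCl.inv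
    intro x hx
    rw [hcl, mem_closedBall_zero_iff] at hx
    exact hne x hx
  have h := Complex.norm_le_of_forall_mem_frontier_norm_le (U := ball (0:ℂ) 1) isBounded_ball hd
    (C := δ⁻¹) (by
      intro ξ hξ
      rw [frontier_ball (0:ℂ) one_ne_zero, mem_sphere_zero_iff_norm] at hξ
      rw [norm_inv]
      exact inv_anti₀ hδ (hb ξ hξ)) (z := ζ) (by rw [hcl, mem_closedBall_zero_iff]; exact hζ)
  rw [norm_inv] at h
  exact (inv_le_inv₀ (norm_pos_iff.2 (hne ζ hζ)) hδ).1 h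

/-- homotopy lemma -/
lemma homotopy (h : ℝ → ℂ → ℂ) (hc : Continuous (Function.uncurry h))
    (hd : ∀ t, Differentiable ℂ (h t)) (h0 : ∀ ζ, h 0 ζ = h 0 1)
    (hne : ∀ t ∈ Icc (0:ℝ) 1, ∀ ζ : ℂ, ‖ζ‖ = 1 → h t ζ ≠ 0) :
    ∀ t ∈ Icc (0:ℝ) 1, ∀ ζ : ℂ, ‖ζ‖ ≤ 1 → h t ζ ≠ 0 := by
  -- uniform lower bound on the circle
  obtain ⟨δ, hδ, hδb⟩ : ∃ δ : ℝ, 0 < δ ∧ ∀ t ∈ Icc (0:ℝ) 1, ∀ ζ : ℂ, ‖ζ‖ = 1 → δ ≤ ‖h t ζ‖ := by
    have hcomp : IsCompact (Icc (0:ℝ) 1 ×ˢ sphere (0:ℂ) 1) := isCompact_Icc.prod (isCompact_sphere 0 1)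
    have hnon : (Icc (0:ℝ) 1 ×ˢ sphere (0:ℂ) 1).Nonempty := ⟨(0, 1), by simp⟩
    obtain ⟨⟨t0, ζ0⟩, hmem, hmin⟩ := hcomp.exists_isMinOn hnon hc.norm.continuousOn
    refine ⟨‖h t0 ζ0‖, ?_, ?_⟩
    · rw [norm_pos_iff]
      exact hne t0 hmem.1 ζ0 (by simpa using hmem.2)
    · intro t ht ζ hζ
      exact hmin (show (t, ζ) ∈ Icc (0:ℝ) 1 ×ˢ sphere (0:ℂ) 1 from ⟨ht, by simpa using hζ⟩)
  set A : Set ℝ := {t | ∀ ζ : ℂ, ‖ζ‖ ≤ 1 → δ ≤ ‖h t ζ‖} with hA
  have hAcl : IsClosed A := by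
    have : A = ⋂ ζ : ℂ, ⋂ _ : ‖ζ‖ ≤ 1, {t | δ ≤ ‖h t ζ‖} := by
      ext t; simp [hA]
    rw [this]
    apply isClosed_iInter; intro ζ
    apply isClosed_iInter; intro _
    apply isClosed_le continuous_const
    exact (hc.comp (by fun_prop : Continuous fun t : ℝ => (t, ζ))).norm
  have hsub : Icc (0:ℝ) 1 ⊆ A := by
    apply IsClosed.Icc_subset_of_forall_mem_nhdsWithin (hAcl.inter isClosed_Icc)
    · intro ζ _
      rw [h0 ζ]
      exact hδb 0 (by simp) 1 (by simp)
    · rintro x ⟨hxA, hx⟩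
      -- nearby parameters
      have hev : ∀ᶠ t in 𝓝 x, ∀ ζ ∈ closedBall (0:ℂ) 1, h t ζ ≠ 0 := by
        have hK : IsCompact (closedBall (0:ℂ) 1) := isCompact_closedBall 0 1
        have := hK.eventually_forall_of_forall_eventually (x₀ := x)
          (P := fun t ζ => h t ζ ≠ 0) (by
            intro ζ hζ
            have hne' : h x ζ ≠ 0 := by
              rw [← norm_pos_iff]
              exact lt_of_lt_of_le hδ (hxA ζ (by simpa using hζ))
            have hcont : ContinuousAt (Function.uncurry h) (x, ζ) := hc.continuousAt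
            exact hcont.eventually_ne hne')
        exact this
      have hlt : ∀ᶠ t in 𝓝[>] x, t < 1 := nhdsWithin_le_nhds (Iio_mem_nhds hx.2)
      filter_upwards [nhdsWithin_le_nhds hev, hlt, self_mem_nhdsWithin] with t ht1 ht2 ht3
      intro ζ hζ
      have htI : t ∈ Icc (0:ℝ) 1 := ⟨hx.1.trans (le_of_lt ht3), ht2.le⟩
      exact min_modulus (h t) (hd t) δ hδ (fun ζ hζ => ht1 ζ (by simpa using hζ))
        (fun ζ hζ => hδb t htI ζ hζ) ζ hζ
  intro t ht ζ hζ
  rw [← norm_pos_iff]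
  exact lt_of_lt_of_le hδ (hsub ht ζ hζ)

/-- evaluation of a polynomial is holomorphic -/
lemma differentiable_eval {n : ℕ} (P : MvPolynomial (Fin n) ℂ) :
    Differentiable ℂ fun w : Fin n → ℂ => MvPolynomial.eval w P := by
  have : (fun w : Fin n → ℂ => MvPolynomial.eval w P) =
    fun w => ∑ d ∈ P.support, P.coeff d * ∏ i, w i ^ d i := by
    funext w; rw [MvPolynomial.eval_eq']
  rw [this]
  fun_prop

/-- the points `(t ζ, t, 0, ..., 0)` -/
noncomputable def pt (m : ℕ) (t : ℝ) (ζ : ℂ) : Fin (m + 2) → ℂ :=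
  fun i => if i = 0 then (t:ℂ) * ζ else if i = 1 then (t:ℂ) else 0

lemma pt_zero (m : ℕ) (t : ℝ) (ζ : ℂ) : pt m t ζ 0 = (t:ℂ) * ζ := by simp [pt]
lemma pt_one (m : ℕ) (t : ℝ) (ζ : ℂ) : pt m t ζ 1 = (t:ℂ) := by simp [pt]

/-- the key fact: a polynomial without zeros on `{|z₀| = |z₁|}` does not vanish at
`(0, 1, 0, ..., 0)` -/
lemma key (m : ℕ) (P : MvPolynomial (Fin (m + 2)) ℂ)
    (hP : ∀ z : Fin (m + 2) → ℂ, ‖z 0‖ = ‖z 1‖ → MvPolynomial.eval z P ≠ 0) :
    MvPolynomial.eval (pt m 1 0) P ≠ 0 := by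
  have hptc : Continuous fun x : ℝ × ℂ => pt m x.1 x.2 := by
    apply continuous_pi
    intro i
    simp only [pt]
    split_ifs <;> fun_prop
  have hptd : ∀ t : ℝ, Differentiable ℂ fun ζ : ℂ => pt m t ζ := by
    intro t
    rw [differentiable_pi]
    intro i
    simp only [pt]
    split_ifs <;> fun_prop
  have h := homotopy (fun t ζ => MvPolynomial.eval (pt m t ζ) P)
    ((MvPolynomial.continuous_eval P).comp hptc)
    (fun t => (differentiable_eval P).comp (hptd t))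
    (fun ζ => by
      have : pt m 0 ζ = pt m 0 1 := by
        funext i; simp [pt]
      simp only [this])
    (fun t ht ζ hζ => hP _ (by
      rw [pt_zero, pt_one, norm_mul, hζ, mul_one]))
  exact h 1 (by simp) 0 (by simp)

/-- the counterexample in dimension `m + 2` -/
lemma counterexample (m : ℕ) (T : Set ℂ) (N : ℝ) (hN : 0 ≤ N) :
    ∃ K V : Set (Cn (m + 2)), IsClosedCone T K ∧ K.Nonempty ∧ IsVariety V ∧ V.Nonempty ∧
      V ≠ univ ∧ StaysAway V K N ∧
      ¬ ∃ P : MvPolynomial (Fin (m + 2)) ℂ, V ⊆ Zero P ∧ Zero P ∩ K = ∅ := by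
  refine ⟨{z | ‖z 0‖ = ‖z 1‖}, {z | z 0 = 0 ∧ z 1 = 1}, ?_, ?_, ?_, ?_, ?_, ?_, ?_⟩
  · constructor
    · apply isClosed_eq <;> fun_prop
    · intro t _ z hz
      simp only [mem_setOf_eq, PiLp.smul_apply, smul_eq_mul, norm_mul] at hz ⊢
      rw [hz]
  · exact ⟨0, by simp⟩
  · refine ⟨{MvPolynomial.X 0, MvPolynomial.X 1 - 1}, ?_⟩
    ext z
    simp [Zero, sub_eq_zero]
  · refine ⟨WithLp.toLp 2 (pt m 1 0), ?_⟩
    constructor
    · simp [pt]
    · simp [pt]
  · intro h
    have : (0 : Cn (m + 2)) ∈ {z : Cn (m + 2) | z 0 = 0 ∧ z 1 = 1} := by rw [h]; trivial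
    simp at this
  · refine ⟨1 / 2, by norm_num, ?_⟩
    rintro z ⟨hz0, hz1⟩
    have h1 : 1 / 2 ≤ infDist z {z : Cn (m + 2) | ‖z 0‖ = ‖z 1‖} := by
      rw [le_infDist ⟨0, by simp⟩]
      intro w hw
      simp only [mem_setOf_eq] at hw
      have a0 : ‖(z - w) 0‖ ≤ ‖z - w‖ := PiLp.norm_apply_le (z - w) 0
      have a1 : ‖(z - w) 1‖ ≤ ‖z - w‖ := PiLp.norm_apply_le (z - w) 1
      rw [PiLp.sub_apply, hz0, zero_sub, norm_neg] at a0
      rw [PiLp.sub_apply, hz1] at a1
      have a2 : 1 - ‖w 1‖ ≤ ‖1 - w 1‖ := by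
        have := norm_sub_norm_le (1:ℂ) (w 1)
        simpa using this
      rw [dist_eq_norm]
      linarith
    have h2 : (1:ℝ) ≤ (1 + ‖z‖) ^ N := by
      apply Real.one_le_rpow _ hN
      linarith [norm_nonneg z]
    calc (1:ℝ) / 2 = 1 / 2 * 1 := by ring
      _ ≤ _ := by gcongr
  · rintro ⟨P, hV, hK⟩
    apply key m P
    · intro z hz hPz
      have : (WithLp.toLp 2 z : Cn (m + 2)) ∈ Zero P ∩ {z | ‖z 0‖ = ‖z 1‖} := by
        constructor
        · simpa [Zero] using hPz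
        · simpa using hz
      rw [hK] at this
      exact this
    · have : (WithLp.toLp 2 (pt m 1 0) : Cn (m + 2)) ∈ Zero P := by
        apply hV
        constructor
        · simp [pt]
        · simp [pt]
      simpa [Zero] using this

/-- a proper variety of `ℂ¹` is finite -/
lemma finite_of_variety (V : Set (Cn 1)) (hV : IsVariety V) (hne : V ≠ univ) : V.Finite := by
  obtain ⟨s, rfl⟩ := hV
  obtain ⟨z0, hz0⟩ : ∃ z0 : Cn 1, z0 ∉ {z : Cn 1 | ∀ P ∈ s, z ∈ Zero P} := by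
    by_contra h
    push Not at h
    exact hne (eq_univ_of_forall h)
  simp only [mem_setOf_eq, not_forall] at hz0
  obtain ⟨P, hPs, hP⟩ := hz0
  set q : Polynomial ℂ := MvPolynomial.aeval (fun _ : Fin 1 => (Polynomial.X : Polynomial ℂ)) P with hq
  have hqe : ∀ z : Cn 1, q.eval (z 0) = MvPolynomial.eval (fun i => z i) P := by
    intro z
    rw [hq, MvPolynomial.aeval_def, ← Polynomial.coe_evalRingHom, MvPolynomial.hom_eval₂]
    rw [MvPolynomial.eval, MvPolynomial.coe_eval₂Hom]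
    congr 1
    · ext x; simp
    · funext i; fin_cases i; simp
  have hq0 : q ≠ 0 := by
    intro h
    apply hP
    show MvPolynomial.eval (fun i => z0 i) P = 0
    rw [← hqe, h]; simp
  have hfin : (q.rootSet ℂ).Finite := Polynomial.rootSet_finite q ℂ
  apply Set.Finite.of_finite_image (f := fun z : Cn 1 => z 0)
  · apply hfin.subset
    rintro _ ⟨z, hz, rfl⟩
    rw [Polynomial.mem_rootSet]
    refine ⟨hq0, ?_⟩
    have := hz P hPs
    have h2 : q.eval (z 0) = 0 := by rw [hqe]; exact this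
    simpa [Polynomial.aeval_def] using h2
  · intro z _ w _ h
    ext i
    fin_cases i
    exact h

/-- the positive answer in dimension one -/
lemma dim_one (T : Set ℂ) (N : ℝ) : StrongSeparationHolds T 1 N := by
  intro K V _ _ hV hVne hVu hst
  have hfin := finite_of_variety V hV hVu
  set P : MvPolynomial (Fin 1) ℂ :=
    ∏ a ∈ hfin.toFinset, (MvPolynomial.X 0 - MvPolynomial.C (a 0)) with hP
  have hZ : Zero P = V := by
    ext z
    simp only [Zero, mem_setOf_eq, hP, map_prod, map_sub, MvPolynomial.eval_X,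
      MvPolynomial.eval_C, Finset.prod_eq_zero_iff, Set.Finite.mem_toFinset, sub_eq_zero]
    constructor
    · rintro ⟨a, ha, hza⟩
      have : z = a := by
        ext i; fin_cases i; exact hza
      rwa [this]
    · intro hz
      exact ⟨z, hz, rfl⟩
  refine ⟨P, ?_, hZ.symm.subset, ?_, ?_⟩
  · intro c hc
    obtain ⟨a, ha⟩ := hVne
    have h1 : a ∈ Zero P := by rw [hZ]; exact ha
    rw [hc] at h1
    have hc0 : c = 0 := by simpa [Zero] using h1
    apply hVu
    rw [← hZ, hc, hc0]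
    ext z; simp [Zero]
  · rw [hZ]
    ext z
    simp only [mem_inter_iff, mem_empty_iff_false, iff_false, not_and]
    intro hz hzK
    obtain ⟨c, hc, h⟩ := hst
    have := h z hz
    rw [infDist_zero_of_mem hzK, zero_mul] at this
    linarith
  · rw [hZ]; exact hst

lemma dim_zero (T : Set ℂ) (N : ℝ) : StrongSeparationHolds T 0 N := by
  intro K V _ _ _ hVne hVu _
  exfalso
  apply hVu
  obtain ⟨a, ha⟩ := hVne
  apply eq_univ_of_forall
  intro z
  rwa [Subsingleton.elim z a]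

lemma weak_of_strong (T : Set ℂ) (n : ℕ) (N : ℝ) (h : StrongSeparationHolds T n N) :
    SeparationHolds T n N := by
  intro K V h1 h2 h3 h4 h5 h6
  obtain ⟨P, a, b, c, _⟩ := h K V h1 h2 h3 h4 h5 h6
  exact ⟨P, a, b, c⟩

/-- **Main theorem.** For every set `T` of scalars (`T = (0, ∞)` in the question; `T = ℝ` and
`T = ℂ` give real and complex cones), every `n` and every exponent `N ≥ 0`: separation by an
algebraic hypersurface (Q1) holds in `ℂⁿ` if and only if `n ≤ 1`, and the same is true for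
separation by a hypersurface staying polynomially away with the same exponent (Q2). -/
theorem result (T : Set ℂ) (n : ℕ) (N : ℝ) (hN : 0 ≤ N) :
    (SeparationHolds T n N ↔ n ≤ 1) ∧ (StrongSeparationHolds T n N ↔ n ≤ 1) := by
  have hpos : n ≤ 1 → StrongSeparationHolds T n N := by
    intro hn
    interval_cases n
    · exact dim_zero T N
    · exact dim_one T N
  have hneg : SeparationHolds T n N → n ≤ 1 := by
    intro h
    by_contra hcon
    obtain ⟨m, rfl⟩ : ∃ m, n = m + 2 := ⟨n - 2, by omega⟩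
    obtain ⟨K, V, h1, h2, h3, h4, h5, h6, h7⟩ := counterexample m T N hN
    obtain ⟨P, _, hV, hK⟩ := h K V h1 h2 h3 h4 h5 h6
    exact h7 ⟨P, hV, hK⟩
  exact ⟨⟨hneg, fun hn => weak_of_strong T n N (hpos hn)⟩,
    ⟨fun h => hneg (weak_of_strong T n N h), hpos⟩⟩

end Pool.Agent.Results.MP_c229cb_an.NoSeparation
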